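import Pool.Agent.Run7.h900.MX.Tool

/-! helper569: piece CHAIN of project MX (helper900). -/

universe u

namespace Run7.h569.MX

open Run7.h900.MX

theorem t_CHAIN : S_CHAIN.{u} := by
  intro G _ _ _ _ _ _ T K hK hTK s hs
  -- the family contains K
  have hKF : Fam T K s K := by
    refine ⟨hK, le_refl _, hTK, fun U => ?_⟩
    rw [Subgroup.relIndex_self]
    exact hs.one_lt.ne' ∘ Nat.dvd_one.1
  have hz := zorn_le_nonempty₀ (α := (Subgroup G)ᵒᵈ) {H | Fam T K s (OrderDual.ofDual H)} ?_
    (OrderDual.toDual K) hKF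
  · obtain ⟨m, -, hm⟩ := hz
    refine ⟨OrderDual.ofDual m, hm.prop, fun H' hH' hle => ?_⟩
    exact le_antisymm hle (hm.le_of_ge (y := OrderDual.toDual H') hH' hle)
  intro c hc hch y hy
  refine ⟨OrderDual.toDual (⨅ H : c, OrderDual.ofDual H.1), ?_, fun z hz => ?_⟩
  swap
  · exact iInf_le (fun H : c => OrderDual.ofDual H.1) ⟨z, hz⟩
  have hcoe : ((⨅ H : c, OrderDual.ofDual H.1 : Subgroup G) : Set G) =
      ⋂ H : c, ((OrderDual.ofDual H.1 : Subgroup G) : Set G) := Subgroup.coe_iInf
  refine ⟨?_, ?_, ?_, fun U => ?_⟩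
  · change IsClosed ((⨅ H : c, OrderDual.ofDual H.1 : Subgroup G) : Set G)
    rw [hcoe]
    exact isClosed_iInter fun H => (hc H.2).1
  · exact (iInf_le (fun H : c => OrderDual.ofDual H.1) ⟨y, hy⟩).trans (hc hy).2.1
  · intro t ht x hx
    change x ∈ (⨅ H : c, OrderDual.ofDual H.1 : Subgroup G) at hx
    change _ ∈ (⨅ H : c, OrderDual.ofDual H.1 : Subgroup G)
    rw [Subgroup.mem_iInf] at hx ⊢
    intro H
    exact (hc H.2).2.2.1 t ht x (hx H)
  · -- a smallest image
    have : Finite (G ⧸ U.toSubgroup) := finQ U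
    let S : Set (Subgroup (G ⧸ U.toSubgroup)) :=
      (fun H : (Subgroup G)ᵒᵈ => (OrderDual.ofDual H).map (pr U)) '' c
    have hS : S.Nonempty := ⟨_, y, hy, rfl⟩
    obtain ⟨D, hD⟩ := (Set.toFinite S).exists_minimal hS
    obtain ⟨⟨H0, hH0, hD0⟩, hmin⟩ := hD
    have hle : ∀ H ∈ c, D ≤ (OrderDual.ofDual H).map (pr U) := by
      intro H hH
      rcases hch.total hH hH0 with h | h
      · -- H0 ≤ H as subgroups
        rw [← hD0]
        exact Subgroup.map_mono h
      · have h1 : (OrderDual.ofDual H).map (pr U) ≤ D := by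
          rw [← hD0]
          exact Subgroup.map_mono h
        exact hmin ⟨H, hH, rfl⟩ h1
    have key : (⨅ H : c, OrderDual.ofDual H.1 : Subgroup G).map (pr U) = D := by
      apply le_antisymm
      · rw [← hD0]
        exact Subgroup.map_mono (iInf_le (fun H : c => OrderDual.ofDual H.1) ⟨H0, hH0⟩)
      · intro z hz
        have hne : Nonempty c := ⟨⟨y, hy⟩⟩
        have := IsCompact.nonempty_iInter_of_directed_nonempty_isCompact_isClosed
          (fun H : c => ((OrderDual.ofDual H.1 : Subgroup G) : Set G) ∩ {g | pr U g = z}) ?_ ?_ ?_ ?_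
        · obtain ⟨g, hg⟩ := this
          rw [Set.mem_iInter] at hg
          refine ⟨g, ?_, (hg ⟨y, hy⟩).2⟩
          change g ∈ (⨅ H : c, OrderDual.ofDual H.1 : Subgroup G)
          rw [Subgroup.mem_iInf]
          exact fun H => (hg H).1
        · intro A B
          rcases hch.total A.2 B.2 with h | h
          · exact ⟨B, Set.inter_subset_inter_left _ h, subset_rfl⟩
          · exact ⟨A, subset_rfl, Set.inter_subset_inter_left _ h⟩
        · intro H
          obtain ⟨g, hg, e⟩ := hle H.1 H.2 hz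
          exact ⟨g, hg, e⟩
        · intro H
          exact (((hc H.2).1).inter (isClosed_coset U z)).isCompact
        · intro H
          exact ((hc H.2).1).inter (isClosed_coset U z)
    have e : (OrderDual.ofDual (OrderDual.toDual (⨅ H : c, OrderDual.ofDual H.1) :
        (Subgroup G)ᵒᵈ)).map (pr U) = (OrderDual.ofDual H0).map (pr U) := key.trans hD0.symm
    rw [e]
    exact (hc hH0).2.2.2 U

end Run7.h569.MX
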